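import Pool.Agent.Q302.IS.Main

/-! # The group is analytic -/

set_option autoImplicit false

open Set Topology Filter

namespace Pool.Agent.Q302.IS.Data

variable (D : Data)

theorem continuous_node (i : ℕ) : Continuous fun h : ℕ → ℕ => node h i := by
  rw [continuous_discrete_rng]
  intro n
  rw [isOpen_iff_mem_nhds]
  intro h hh
  have h1 : ∀ᶠ h' : ℕ → ℕ in 𝓝 h, ∀ j ∈ Finset.range i, h' j = h j := by
    refine (Filter.eventually_all_finset _).2 fun j _ => ?_
    have := (continuous_apply (A := fun _ : ℕ => ℕ) j).tendsto h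
    rw [nhds_discrete ℕ, tendsto_pure] at this
    exact this
  filter_upwards [h1] with h' hh'
  have h2 : node h' i = node h i := node_congr fun j hj => hh' j (Finset.mem_range.2 hj)
  change node h' i = n
  rw [h2]
  exact hh

theorem continuous_X : Continuous D.X := by
  have h1 : ∀ h, D.Y (range (node h)) = ∑' i, D.t h i := by
    intro h
    rw [← image_univ, D.Y_node, indicator_univ]
  have h2 : Continuous fun h => D.Y (range (node h)) := by
    simp only [h1]
    refine continuous_tsum (u := fun i => (1 / 2 : ℝ) ^ i) (fun i => ?_)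
      (summable_geometric_of_lt_one (by norm_num) (by norm_num)) fun i h => ?_
    · exact (continuous_of_discreteTopology (f := D.u)).comp (continuous_node i)
    · rw [Real.norm_eq_abs]
      refine (D.abs_t_le h i).trans ?_
      rw [one_div_pow]
      refine one_div_le_one_div_of_le (by positivity) ?_
      have : (0 : ℝ) ≤ ((∑ j ∈ Finset.range i, h j : ℕ) : ℝ) := Nat.cast_nonneg _
      nlinarith [show (0 : ℝ) < 2 ^ i by positivity]
  exact (AddCircle.continuous_mk' 1).comp h2

theorem analytic_H : MeasureTheory.AnalyticSet (D.H : Set UnitAddCircle) := by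
  have h1 : (D.H : Set UnitAddCircle) = ⋃ q : Σ d : ℕ, ℤ × (Fin d → ℤ),
      range (fun hh : Fin q.1 → ℕ → ℕ => q.2.1 • D.x₀ + ∑ i, q.2.2 i • D.X (hh i)) := by
    ext z
    rw [mem_iUnion]
    constructor
    · rintro ⟨⟨r, p⟩, rfl⟩
      let e := (Finset.equivFin p.support).symm
      refine ⟨⟨p.support.card, r, fun i => p (e i)⟩, fun i => (e i : ℕ → ℕ), ?_⟩
      change r • D.x₀ + ∑ i, p (e i) • D.X (e i) = r • D.x₀ + p.sum (fun h c => c • D.X h)
      congr 1
      have h2 : p.sum (fun h c => c • D.X h) = ∑ h : p.support, p h • D.X h :=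
        (Finset.sum_coe_sort p.support (fun h => p h • D.X h)).symm
      rw [h2]
      exact Equiv.sum_comp e (fun h : p.support => p h • D.X h)
    · rintro ⟨⟨d, r, c⟩, hh, rfl⟩
      refine D.H.add_mem (D.H.zsmul_mem D.x₀_mem _) (D.H.sum_mem fun i _ => ?_)
      exact D.H.zsmul_mem (D.X_mem _) _
  rw [h1]
  refine MeasureTheory.AnalyticSet.iUnion fun q => ?_
  refine MeasureTheory.analyticSet_range_of_polishSpace ?_
  have h2 : Continuous fun hh : Fin q.1 → ℕ → ℕ => ∑ i, q.2.2 i • D.X (hh i) :=
    continuous_finsetSum _ fun i _ => (D.continuous_X.comp (continuous_apply i)).zsmul _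
  exact continuous_const.add h2

end Pool.Agent.Q302.IS.Data
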