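import Pool.Agent.Q302.IS.Seq

/-! # A subgroup of the circle which is not characterized by star convergence along any ideal -/

set_option autoImplicit false

open Set Topology Filter

namespace Pool.Agent.Q302.IS

/-- The code of the initial segment of length `i` of `h`. -/
def node (h : ℕ → ℕ) (i : ℕ) : ℕ := Encodable.encode ((List.range i).map h)

theorem node_eq {h h' : ℕ → ℕ} {i i' : ℕ} (he : node h i = node h' i') :
    i = i' ∧ ∀ j < i, h j = h' j := by
  have h1 : (List.range i).map h = (List.range i').map h' := Encodable.encode_injective he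
  have h2 : i = i' := by
    have := congrArg List.length h1
    simpa using this
  subst h2
  refine ⟨rfl, fun j hj => ?_⟩
  have h3 := List.map_inj_left.1 h1 j (List.mem_range.2 hj)
  exact h3

theorem node_injective (h : ℕ → ℕ) : Function.Injective (node h) := fun _ _ he => (node_eq he).1

theorem node_congr {h h' : ℕ → ℕ} {i : ℕ} (hh : ∀ j < i, h j = h' j) : node h i = node h' i := by
  unfold node
  congr 1
  exact List.map_inj_left.2 fun j hj => hh j (List.mem_range.1 hj)

/-- The weight of a natural number, read as a list. -/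
noncomputable def wt (n : ℕ) : ℝ :=
  match (Encodable.decode n : Option (List ℕ)) with
  | none => 1
  | some s => 1 / (2 ^ s.length * (1 + s.sum))

theorem wt_pos (n : ℕ) : 0 < wt n := by
  unfold wt
  split
  · exact one_pos
  · positivity

theorem list_sum_range (h : ℕ → ℕ) (i : ℕ) :
    ((List.range i).map h).sum = ∑ j ∈ Finset.range i, h j := by
  induction i with
  | zero => rfl
  | succ i ih => rw [List.range_succ, List.map_append, List.sum_append, ih, Finset.sum_range_succ]; simp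

theorem wt_node (h : ℕ → ℕ) (i : ℕ) :
    wt (node h i) = 1 / (2 ^ i * (1 + ((∑ j ∈ Finset.range i, h j : ℕ) : ℝ))) := by
  unfold wt node
  rw [Encodable.encodek]
  simp only [List.length_map, List.length_range]
  rw [list_sum_range]

/-! ### The data -/

/-- The data of the construction. -/
structure Data where
  x : ℝ
  k : ℕ → ℤ
  l : ℕ → ℤ
  hx : Irrational x
  hk : ∀ n, k n ≠ 0
  hw : ∀ n, |uu x k l n| ≤ wt n * (1 / 2) ^ n
  hM : ∀ n, ∀ M : ℤ, M ≠ 0 → |M| ≤ n * (1 + ∑ i ∈ Finset.range n, |k i|) →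
        |uu x k l n| * (2 ^ (n + 1) * (n + 1)) ≤ ‖((M * x : ℝ) : UnitAddCircle)‖

theorem exists_data : Nonempty Data := by
  obtain ⟨k, l, h⟩ := exists_kl irrational_sqrt_two (fun n => wt n * (1 / 2) ^ n)
    (fun n => mul_pos (wt_pos n) (by positivity))
  exact ⟨⟨√2, k, l, irrational_sqrt_two, fun n => (h n).1, fun n => (h n).2.1,
    fun n => (h n).2.2⟩⟩

namespace Data

variable (D : Data)

/-- The small real numbers. -/
noncomputable def u (n : ℕ) : ℝ := uu D.x D.k D.l n

/-- The irrational point of the circle. -/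
noncomputable def x₀ : UnitAddCircle := (D.x : UnitAddCircle)

theorem coe_u (n : ℕ) : (D.u n : UnitAddCircle) = D.k n • D.x₀ := by
  have h1 : D.u n = D.k n * D.x - D.l n := rfl
  rw [h1, AddCircle.coe_sub]
  have h2 : ((D.l n : ℝ) : UnitAddCircle) = 0 :=
    (AddCircle.coe_eq_zero_iff (1 : ℝ)).2 ⟨D.l n, by simp⟩
  rw [h2, sub_zero, x₀, ← AddCircle.coe_zsmul, zsmul_eq_mul]

theorem wt_le_one (n : ℕ) : wt n ≤ 1 := by
  unfold wt
  split
  · exact le_rfl
  · rename_i s _
    rw [div_le_one (by positivity)]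
    have h1 : (1 : ℝ) ≤ 2 ^ s.length := one_le_pow₀ (by norm_num)
    have h2 : (1 : ℝ) ≤ 1 + (s.sum : ℝ) := by linarith [Nat.cast_nonneg (α := ℝ) s.sum]
    exact one_le_mul_of_one_le_of_one_le h1 h2

theorem abs_u_le (n : ℕ) : |D.u n| ≤ (1 / 2) ^ n := by
  refine (D.hw n).trans ?_
  have h1 : (0 : ℝ) ≤ (1 / 2) ^ n := by positivity
  nlinarith [wt_le_one n]

theorem summable_abs_u : Summable fun n => |D.u n| :=
  Summable.of_nonneg_of_le (fun n => abs_nonneg _) D.abs_u_le
    (summable_geometric_of_lt_one (by norm_num) (by norm_num))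

theorem summable_indicator (A : Set ℕ) : Summable (A.indicator D.u) := by
  classical
  refine Summable.of_norm_bounded D.summable_abs_u fun n => ?_
  rw [Set.indicator_apply]
  split_ifs
  · exact le_rfl
  · simp

/-- The sum over a set. -/
noncomputable def Y (A : Set ℕ) : ℝ := ∑' n, A.indicator D.u n

/-- The terms along a branch. -/
noncomputable def t (h : ℕ → ℕ) (i : ℕ) : ℝ := D.u (node h i)

theorem abs_t_le (h : ℕ → ℕ) (i : ℕ) :
    |D.t h i| ≤ 1 / (2 ^ i * (1 + ((∑ j ∈ Finset.range i, h j : ℕ) : ℝ))) := by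
  refine (D.hw _).trans ?_
  rw [← wt_node]
  have h1 : ((1 : ℝ) / 2) ^ node h i ≤ 1 := pow_le_one₀ (by norm_num) (by norm_num)
  have h2 := (wt_pos (node h i)).le
  nlinarith

theorem summable_abs_t (h : ℕ → ℕ) : Summable fun i => |D.t h i| :=
  D.summable_abs_u.comp_injective (node_injective h)

theorem summable_indicator_t (h : ℕ → ℕ) (E : Set ℕ) : Summable (E.indicator (D.t h)) := by
  classical
  refine Summable.of_norm_bounded (D.summable_abs_t h) fun n => ?_
  rw [Set.indicator_apply]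
  split_ifs
  · exact le_rfl
  · simp

theorem Y_node (h : ℕ → ℕ) (E : Set ℕ) : D.Y (node h '' E) = ∑' i, E.indicator (D.t h) i := by
  classical
  rw [Y, ← (node_injective h).tsum_eq]
  · refine tsum_congr fun i => ?_
    rw [Set.indicator_apply, Set.indicator_apply]
    by_cases hi : i ∈ E
    · rw [if_pos hi, if_pos (mem_image_of_mem _ hi)]
      rfl
    · rw [if_neg hi, if_neg]
      rintro ⟨j, hj, hji⟩
      exact hi (node_injective h hji ▸ hj)
  · intro n hn
    rw [Function.mem_support] at hn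
    have : n ∈ node h '' E := by
      by_contra hno
      exact hn (Set.indicator_of_notMem hno _)
    exact image_subset_range _ _ this

/-- The elements of the group. -/
noncomputable def X (h : ℕ → ℕ) : UnitAddCircle := (D.Y (range (node h)) : UnitAddCircle)

/-- The elements outside the group. -/
noncomputable def Z (h : ℕ → ℕ) : UnitAddCircle :=
  (D.Y (node h '' {i | Even i}) : UnitAddCircle)

/-- The sum of the multipliers. -/
def K (h : ℕ → ℕ) (m : ℕ) : ℕ := ∑ i ∈ Finset.range m, (D.k (node h i)).natAbs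

theorem K_congr {h h' : ℕ → ℕ} {m : ℕ} (hh : ∀ j < m, h j = h' j) :
    D.K h (m + 1) = D.K h' (m + 1) := by
  refine Finset.sum_congr rfl fun i hi => ?_
  rw [node_congr fun j hj => hh j ?_]
  have := Finset.mem_range.1 hi
  omega

theorem norm_coe_le (r : ℝ) : ‖(r : UnitAddCircle)‖ ≤ |r| := QuotientAddGroup.norm_mk_le_norm

/-- The main estimate. -/
theorem main_estimate (h : ℕ → ℕ) (E : Set ℕ) (b : ℤ) (m : ℕ) :
    ‖b • (D.Y (node h '' E) : UnitAddCircle) - b • ((E.indicator (D.t h) m : ℝ) : UnitAddCircle)‖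
      ≤ ‖b • D.x₀‖ * D.K h m + |(b : ℝ)| * ∑' i, |D.t h (i + (m + 1))| := by
  classical
  have hs := D.summable_indicator_t h E
  set f : ℕ → ℝ := E.indicator (D.t h) with hf
  have h1 : D.Y (node h '' E) = ∑ i ∈ Finset.range m, f i + f m + ∑' i, f (i + (m + 1)) := by
    rw [Y_node, ← hs.sum_add_tsum_nat_add (m + 1), Finset.sum_range_succ]
  have hfle : ∀ i, |f i| ≤ |D.t h i| := by
    intro i
    rw [hf, Set.indicator_apply]
    split_ifs
    · exact le_rfl
    · simp
  have h2 : b • (D.Y (node h '' E) : UnitAddCircle) - b • ((f m : ℝ) : UnitAddCircle) =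
      ∑ i ∈ Finset.range m, b • ((f i : ℝ) : UnitAddCircle) +
        ((b * ∑' i, f (i + (m + 1)) : ℝ) : UnitAddCircle) := by
    have h3 : b • (D.Y (node h '' E) : UnitAddCircle) = ((b * D.Y (node h '' E) : ℝ) : UnitAddCircle) := by
      rw [← AddCircle.coe_zsmul, zsmul_eq_mul]
    have h4 : ∀ i, b • ((f i : ℝ) : UnitAddCircle) = ((b * f i : ℝ) : UnitAddCircle) := fun i => by
      rw [← AddCircle.coe_zsmul, zsmul_eq_mul]
    rw [h3]
    simp only [h4]
    rw [← AddCircle.coe_sub, ← QuotientAddGroup.mk_sum, ← AddCircle.coe_add]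
    congr 1
    rw [h1, ← Finset.mul_sum]
    ring
  rw [h2]
  refine (norm_add_le _ _).trans (add_le_add ?_ ?_)
  · refine (norm_sum_le _ _).trans ?_
    rw [K]
    push_cast
    rw [Finset.mul_sum]
    refine Finset.sum_le_sum fun i _ => ?_
    rw [hf, Set.indicator_apply]
    split_ifs
    · have h5 : ((D.t h i : ℝ) : UnitAddCircle) = D.k (node h i) • D.x₀ := D.coe_u _
      rw [h5, smul_comm]
      refine (norm_zsmul_le _ _).trans ?_
      rw [mul_comm, Int.norm_eq_abs, ← Int.cast_abs, Int.abs_eq_natAbs, Int.cast_natCast]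
    · rw [AddCircle.coe_zero, smul_zero, norm_zero]
      positivity
  · refine (norm_coe_le _).trans ?_
    rw [abs_mul]
    refine mul_le_mul_of_nonneg_left ?_ (abs_nonneg _)
    have hst : Summable fun i => |D.t h (i + (m + 1))| :=
      (summable_nat_add_iff (f := fun i => |D.t h i|) (m + 1)).2 (D.summable_abs_t h)
    exact tsum_of_norm_bounded (f := fun i => f (i + (m + 1))) hst.hasSum fun i => hfle _

/-- Sparse branches. -/
theorem exists_branch (g : ℕ → ℕ) : ∃ h : ℕ → ℕ, ∀ m : ℕ,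
    (g ((m + 1) * D.K h (m + 1)) : ℝ) * ∑' i, |D.t h (i + (m + 1))| ≤ 1 / (m + 1) := by
  obtain ⟨h, hh⟩ := exists_seq (α := ℕ)
    (fun m p a => a = (m + 1) * g ((m + 1) *
      D.K (fun j => if hj : j < m then p ⟨j, hj⟩ else 0) (m + 1))) (fun n p => ⟨_, rfl⟩)
  refine ⟨h, fun m => ?_⟩
  have h1 : h m = (m + 1) * g ((m + 1) * D.K h (m + 1)) := by
    rw [hh m]
    congr 3
    refine D.K_congr fun j hj => ?_
    simp [hj]
  set G : ℕ := g ((m + 1) * D.K h (m + 1)) with hG
  have h2 : ∀ i, |D.t h (i + (m + 1))| ≤ (1 / (1 + (h m : ℝ))) / 2 / 2 ^ i := by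
    intro i
    refine (D.abs_t_le h _).trans ?_
    rw [div_div, div_div]
    refine div_le_div_of_nonneg_left zero_le_one (by positivity) ?_
    have h3 : (h m : ℝ) ≤ ((∑ j ∈ Finset.range (i + (m + 1)), h j : ℕ) : ℝ) := by
      have : h m ≤ ∑ j ∈ Finset.range (i + (m + 1)), h j :=
        Finset.single_le_sum (f := h) (fun j _ => Nat.zero_le _) (Finset.mem_range.2 (by omega))
      exact_mod_cast this
    have h4 : (2 : ℝ) ^ (i + 1) ≤ 2 ^ (i + (m + 1)) := pow_le_pow_right₀ (by norm_num) (by omega)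
    calc (1 + (h m : ℝ)) * (2 * 2 ^ i) = 2 ^ (i + 1) * (1 + (h m : ℝ)) := by ring
      _ ≤ _ := mul_le_mul h4 (by linarith) (by positivity) (by positivity)
  have h5 : ∑' i, |D.t h (i + (m + 1))| ≤ 1 / (1 + (h m : ℝ)) := by
    have hg := hasSum_geometric_two' (1 / (1 + (h m : ℝ)))
    rw [← hg.tsum_eq]
    exact Summable.tsum_le_tsum h2
      ((summable_nat_add_iff (f := fun i => |D.t h i|) (m + 1)).2 (D.summable_abs_t h)) hg.summable
  have h6 : (h m : ℝ) = (m + 1) * G := by rw [h1]; push_cast; ring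
  calc (G : ℝ) * ∑' i, |D.t h (i + (m + 1))| ≤ G * (1 / (1 + (h m : ℝ))) :=
        mul_le_mul_of_nonneg_left h5 (Nat.cast_nonneg _)
    _ = G / (1 + (m + 1) * G) := by rw [h6]; ring
    _ ≤ 1 / (m + 1) := by
      rw [div_le_div_iff₀ (by positivity) (by positivity)]
      nlinarith

/-- The group. -/
noncomputable def hom : (ℤ × ((ℕ → ℕ) →₀ ℤ)) →+ UnitAddCircle where
  toFun q := q.1 • D.x₀ + q.2.sum fun h c => c • D.X h
  map_zero' := by simp
  map_add' p q := by
    change (p.1 + q.1) • D.x₀ + (p.2 + q.2).sum (fun h c => c • D.X h) = _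
    rw [Finsupp.sum_add_index' (h := fun h c => c • D.X h) (fun h => zero_smul _ _)
      (fun h a b => add_smul _ _ _), add_smul]
    abel

/-- The group. -/
noncomputable def H : AddSubgroup UnitAddCircle := D.hom.range

theorem x₀_mem : D.x₀ ∈ D.H := ⟨(1, 0), by simp [hom]⟩

theorem X_mem (h : ℕ → ℕ) : D.X h ∈ D.H := ⟨(0, Finsupp.single h 1), by
  change (0 : ℤ) • D.x₀ + (Finsupp.single h (1 : ℤ)).sum (fun h c => c • D.X h) = _
  rw [Finsupp.sum_single_index (h := fun h c => c • D.X h) (zero_smul _ _)]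
  simp⟩

/-- The even part of a branch is not in the group. -/
theorem Z_notMem (h : ℕ → ℕ) : D.Z h ∉ D.H := by
  classical
  rintro ⟨⟨r, p⟩, hp⟩
  have hp1 : r • D.x₀ + p.sum (fun h c => c • D.X h) = D.Z h := hp
  -- the coefficients
  set c : ℕ → ℤ := fun n => ∑ h' ∈ p.support, p h' * (if n ∈ range (node h') then 1 else 0) -
    (if n ∈ node h '' {i | Even i} then 1 else 0) with hc
  have hcb : ∀ n, |c n| ≤ ((∑ h' ∈ p.support, (p h').natAbs + 1 : ℕ) : ℤ) := by
    intro n
    rw [hc]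
    refine (abs_sub _ _).trans ?_
    push_cast
    refine add_le_add ?_ ?_
    · refine (Finset.abs_sum_le_sum_abs _ _).trans (Finset.sum_le_sum fun i _ => ?_)
      split_ifs <;> simp
    · split_ifs <;> simp
  have hsum : HasSum (fun n => (c n : ℝ) * D.u n)
      (∑ h' ∈ p.support, (p h' : ℝ) * D.Y (range (node h')) - D.Y (node h '' {i | Even i})) := by
    have h1 : HasSum (fun n => ∑ h' ∈ p.support, (p h' : ℝ) * (range (node h')).indicator D.u n -
        (node h '' {i | Even i}).indicator D.u n)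
      (∑ h' ∈ p.support, (p h' : ℝ) * D.Y (range (node h')) - D.Y (node h '' {i | Even i})) := by
      refine HasSum.sub (hasSum_sum fun h' _ => ?_) (D.summable_indicator _).hasSum
      exact (D.summable_indicator _).hasSum.mul_left _
    refine h1.congr_fun fun n => ?_
    rw [hc]
    push_cast
    rw [sub_mul, Finset.sum_mul]
    refine congrArg₂ _ (Finset.sum_congr rfl fun h' _ => ?_) ?_
    · rw [Set.indicator_apply]
      split_ifs <;> simp
    · rw [Set.indicator_apply]
      split_ifs <;> simp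
  have h0 : ((r * D.x + ∑' n, c n * uu D.x D.k D.l n : ℝ) : UnitAddCircle) = 0 := by
    have h2 : ∑' n, c n * uu D.x D.k D.l n = _ := hsum.tsum_eq
    rw [h2, AddCircle.coe_add, AddCircle.coe_sub, QuotientAddGroup.mk_sum]
    have h3 : ((r * D.x : ℝ) : UnitAddCircle) = r • D.x₀ := by
      rw [x₀, ← AddCircle.coe_zsmul, zsmul_eq_mul]
    have h4 : ∑ h' ∈ p.support, (((p h' : ℝ) * D.Y (range (node h')) : ℝ) : UnitAddCircle) =
        p.sum (fun h c => c • D.X h) := by
      rw [Finsupp.sum]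
      refine Finset.sum_congr rfl fun h' _ => ?_
      have h6 : D.X h' = (D.Y (range (node h')) : UnitAddCircle) := rfl
      rw [h6, ← AddCircle.coe_zsmul, zsmul_eq_mul]
    have h5 : ((D.Y (node h '' {i | Even i}) : ℝ) : UnitAddCircle) = D.Z h := rfl
    rw [h3]
    erw [h4]
    rw [h5, ← hp1]
    abel
  obtain ⟨N, hN⟩ := indep D.hx D.hk D.hM D.summable_abs_u c _ hcb r h0
  -- a level beyond which the branches are disjoint
  obtain ⟨L, hL⟩ : ∃ L : ℕ, ∀ i, L ≤ i → ∀ h' ∈ p.support, h' ≠ h → node h i ∉ range (node h') := by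
    have h1 : ∀ h' ∈ p.support, ∃ L : ℕ, ∀ i, L ≤ i → h' ≠ h → node h i ∉ range (node h') := by
      intro h' _
      by_cases hne : h' = h
      · exact ⟨0, fun i _ hn => (hn hne).elim⟩
      · obtain ⟨j, hj⟩ := Function.ne_iff.1 hne
        refine ⟨j + 1, fun i hi _ => ?_⟩
        rintro ⟨i', hi'⟩
        obtain ⟨h2, h3⟩ := node_eq hi'
        exact hj (h3 j (by omega))
    choose! L hL using h1
    refine ⟨p.support.sup L, fun i hi h' hh' => hL h' hh' i ((Finset.le_sup hh').trans hi)⟩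
  obtain ⟨M, hM⟩ : ∃ M : ℕ, ∀ i, M ≤ i → N ≤ node h i := by
    have h1 : Tendsto (node h) atTop atTop := by
      rw [← Nat.cofinite_eq_atTop]
      exact (node_injective h).tendsto_cofinite
    obtain ⟨M, hM⟩ := (tendsto_atTop.1 h1 N).exists_forall_of_atTop
    exact ⟨M, hM⟩
  have hcoef : ∀ i, L ≤ i → M ≤ i → p h - (if Even i then 1 else 0) = 0 := by
    intro i hLi hMi
    have h1 := hN (node h i) (hM i hMi)
    rw [hc] at h1
    have h2 : ∑ h' ∈ p.support, p h' * (if node h i ∈ range (node h') then (1 : ℤ) else 0) = p h := by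
      rw [Finset.sum_eq_single h]
      · rw [if_pos (mem_range_self i), mul_one]
      · intro h' hh' hne
        rw [if_neg (hL i hLi h' hh' hne), mul_zero]
      · intro hno
        rw [Finsupp.notMem_support_iff.1 hno, zero_mul]
    have h3 : (node h i ∈ node h '' {i | Even i}) ↔ Even i :=
      (node_injective h).mem_set_image
    simp only [h2, h3] at h1
    exact h1
  have e1 := hcoef (2 * (L + M)) (by omega) (by omega)
  have e2 := hcoef (2 * (L + M) + 1) (by omega) (by omega)
  rw [if_pos (even_two_mul _)] at e1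
  rw [if_neg (by simp)] at e2
  omega

/-- The main step: if `b n` is a sequence of integers, and `b n • x → 0` for every `x` in the
group, along some filter, then this is so for one element outside the group. -/
theorem exists_limit (b : ℕ → ℤ) (P : Set ℕ) (hP : Tendsto (fun n => b n • D.x₀) (cofinite ⊓ 𝓟 P) (𝓝 0)) :
    ∃ h : ℕ → ℕ, ∀ Q : Set ℕ, Tendsto (fun n => b n • D.X h) (cofinite ⊓ 𝓟 Q) (𝓝 0) →
      Tendsto (fun n => b n • D.Z h) (cofinite ⊓ 𝓟 (P ∩ Q)) (𝓝 0) := by
  classical
  -- the gauge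
  have hfin : ∀ j : ℕ, ∃ G : ℕ, ∀ n ∈ P, 1 / ((j : ℝ) + 1) < ‖b n • D.x₀‖ → (b n).natAbs ≤ G := by
    intro j
    have h1 : ∀ᶠ n in cofinite ⊓ 𝓟 P, ‖b n • D.x₀‖ < 1 / ((j : ℝ) + 1) :=
      (tendsto_zero_iff_norm_tendsto_zero.1 hP).eventually (gt_mem_nhds (by positivity))
    rw [eventually_inf_principal] at h1
    have h2 : {n : ℕ | ¬ (n ∈ P → ‖b n • D.x₀‖ < 1 / ((j : ℝ) + 1))}.Finite := h1
    refine ⟨h2.toFinset.sup fun n => (b n).natAbs, fun n hn hlt => ?_⟩
    refine Finset.le_sup (f := fun n => (b n).natAbs) (h2.mem_toFinset.2 ?_)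
    intro h3
    exact absurd (h3 hn) (not_lt.2 hlt.le)
  choose g hg using hfin
  obtain ⟨h, hh⟩ := D.exists_branch g
  refine ⟨h, fun Q hQ => ?_⟩
  -- the critical level
  have hKpos : ∀ m, m ≤ D.K h m := by
    intro m
    have h1 : ∑ i ∈ Finset.range m, 1 ≤ ∑ i ∈ Finset.range m, (D.k (node h i)).natAbs :=
      Finset.sum_le_sum fun i _ => Nat.one_le_iff_ne_zero.2 (Int.natAbs_ne_zero.2 (D.hk _))
    rw [K]
    simpa using h1
  rw [tendsto_zero_iff_norm_tendsto_zero, Metric.tendsto_nhds]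
  intro ε hε
  obtain ⟨q, hq⟩ := exists_nat_gt (8 / ε)
  have hq0 : (0 : ℝ) < q := lt_trans (by positivity) hq
  -- eventual smallness
  have e1 : ∀ᶠ n in cofinite ⊓ 𝓟 (P ∩ Q), ∀ j ∈ Finset.range q,
      ‖b n • D.x₀‖ * ((j + 1 : ℕ) * D.K h (j + 1)) ≤ 1 := by
    refine (Filter.eventually_all_finset _).2 fun j _ => ?_
    have h1 : Tendsto (fun n => ‖b n • D.x₀‖ * ((j + 1 : ℕ) * (D.K h (j + 1) : ℝ)))
        (cofinite ⊓ 𝓟 (P ∩ Q)) (𝓝 (0 * ((j + 1 : ℕ) * (D.K h (j + 1) : ℝ)))) := by
      refine Tendsto.mul_const _ ?_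
      exact (tendsto_zero_iff_norm_tendsto_zero.1 hP).mono_left
        (inf_le_inf_left _ (principal_mono.2 inter_subset_left))
    rw [zero_mul] at h1
    exact (h1.eventually (gt_mem_nhds one_pos)).mono fun n hn => hn.le
  have e2 : ∀ᶠ n in cofinite ⊓ 𝓟 (P ∩ Q), ‖b n • D.X h‖ < ε / 4 := by
    have h1 := (tendsto_zero_iff_norm_tendsto_zero.1 hQ).eventually
      (gt_mem_nhds (show (0 : ℝ) < ε / 4 by positivity))
    exact h1.filter_mono (inf_le_inf_left _ (principal_mono.2 inter_subset_right))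
  have e3 : ∀ᶠ n in cofinite ⊓ 𝓟 (P ∩ Q), n ∈ P :=
    Filter.Eventually.filter_mono inf_le_right (eventually_principal.2 fun n hn => hn.1)
  filter_upwards [e1, e2, e3] with n h1 h2 h3
  rw [Real.dist_eq, sub_zero, abs_norm]
  rcases eq_or_ne (b n) 0 with hb | hb
  · rw [hb, zero_smul, norm_zero]
    exact hε
  -- the critical level
  have hρ : 0 < ‖b n • D.x₀‖ := by
    have := norm_pos_of_irrational D.hx hb
    rwa [← zsmul_eq_mul, AddCircle.coe_zsmul] at this
  have hex : ∃ m : ℕ, 1 < ‖b n • D.x₀‖ * ((m + 1 : ℕ) * D.K h (m + 1)) := by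
    obtain ⟨m, hm⟩ := exists_nat_gt (1 / ‖b n • D.x₀‖)
    refine ⟨m, ?_⟩
    rw [div_lt_iff₀ hρ] at hm
    have h4 : (m : ℝ) ≤ (m + 1 : ℕ) * D.K h (m + 1) := by
      have h5 := hKpos (m + 1)
      have h6 : (m + 1) * 1 ≤ (m + 1) * D.K h (m + 1) :=
        Nat.mul_le_mul_left _ (le_trans (Nat.succ_pos m) h5)
      have h7 : m ≤ (m + 1) * D.K h (m + 1) := by omega
      exact_mod_cast h7
    nlinarith
  set m := Nat.find hex with hm
  have hm1 : 1 < ‖b n • D.x₀‖ * ((m + 1 : ℕ) * D.K h (m + 1)) := Nat.find_spec hex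
  have hmq : q ≤ m := by
    by_contra hlt
    push Not at hlt
    exact absurd hm1 (not_lt.2 (h1 m (Finset.mem_range.2 hlt)))
  have hm0 : 0 < m := by
    have : 0 < q := by exact_mod_cast hq0
    omega
  have hm2 : ‖b n • D.x₀‖ * D.K h m ≤ 1 / m := by
    have h4 := Nat.find_min hex (m := m - 1) (by omega)
    push Not at h4
    rw [show m - 1 + 1 = m by omega] at h4
    rw [le_div_iff₀ (by exact_mod_cast hm0)]
    linarith
  have hm3 : |(b n : ℝ)| * ∑' i, |D.t h (i + (m + 1))| ≤ 1 / m := by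
    have h4 := hg ((m + 1) * D.K h (m + 1)) n h3 (by
      rw [div_lt_iff₀ (by positivity)]
      push_cast at hm1 ⊢
      nlinarith)
    have h5 : |(b n : ℝ)| ≤ (g ((m + 1) * D.K h (m + 1)) : ℝ) := by
      rw [← Int.cast_abs, Int.abs_eq_natAbs, Int.cast_natCast]
      exact_mod_cast h4
    have h6 : 0 ≤ ∑' i, |D.t h (i + (m + 1))| := tsum_nonneg fun i => abs_nonneg _
    calc |(b n : ℝ)| * ∑' i, |D.t h (i + (m + 1))|
        ≤ (g ((m + 1) * D.K h (m + 1)) : ℝ) * ∑' i, |D.t h (i + (m + 1))| :=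
          mul_le_mul_of_nonneg_right h5 h6
      _ ≤ 1 / (m + 1) := hh m
      _ ≤ 1 / m := one_div_le_one_div_of_le (by exact_mod_cast hm0) (by linarith)
  have hmε : (2 : ℝ) / m < ε / 4 := by
    have h4 : (q : ℝ) ≤ m := by exact_mod_cast hmq
    rw [div_lt_iff₀ hε] at hq
    rw [div_lt_div_iff₀ (by exact_mod_cast hm0) (by norm_num)]
    nlinarith
  have hest : ∀ E : Set ℕ, ‖b n • (D.Y (node h '' E) : UnitAddCircle) -
      b n • ((E.indicator (D.t h) m : ℝ) : UnitAddCircle)‖ < ε / 4 := by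
    intro E
    refine (D.main_estimate h E (b n) m).trans_lt (lt_of_le_of_lt (add_le_add hm2 hm3) ?_)
    rw [← add_div]
    norm_num
    exact hmε
  have hX := hest univ
  rw [image_univ, indicator_univ] at hX
  have ht : ‖b n • ((D.t h m : ℝ) : UnitAddCircle)‖ < ε / 2 := by
    have h4 : b n • ((D.t h m : ℝ) : UnitAddCircle) = b n • D.X h -
        (b n • (D.Y (range (node h)) : UnitAddCircle) - b n • ((D.t h m : ℝ) : UnitAddCircle)) := by
      rw [X]; abel
    rw [h4]
    refine (norm_sub_le _ _).trans_lt ?_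
    linarith
  have ht' : ‖b n • ((({i | Even i} : Set ℕ).indicator (D.t h) m : ℝ) : UnitAddCircle)‖ < ε / 2 := by
    rw [Set.indicator_apply]
    split_ifs
    · exact ht
    · rw [AddCircle.coe_zero, smul_zero, norm_zero]
      positivity
  have hZ := hest {i | Even i}
  have h4 : b n • D.Z h = (b n • (D.Y (node h '' {i | Even i}) : UnitAddCircle) -
      b n • ((({i | Even i} : Set ℕ).indicator (D.t h) m : ℝ) : UnitAddCircle)) +
      b n • ((({i | Even i} : Set ℕ).indicator (D.t h) m : ℝ) : UnitAddCircle) := by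
    rw [Z]; abel
  rw [h4]
  refine (norm_add_le _ _).trans_lt ?_
  linarith

end Data

end Pool.Agent.Q302.IS
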