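import Mathlib

/-! # A rapidly vanishing sequence of multiples of an irrational number -/

set_option autoImplicit false

open Set Topology Filter

namespace Pool.Agent.Q302.IS

/-- Dependent choice along the natural numbers. -/
theorem exists_seq {α : Type} (Φ : ∀ n : ℕ, (Fin n → α) → α → Prop) (h : ∀ n p, ∃ a, Φ n p a) :
    ∃ f : ℕ → α, ∀ n, Φ n (fun i => f i) (f n) := by
  let F : ∀ n : ℕ, (∀ m : ℕ, m < n → α) → α :=
    fun n ih => Classical.choose (h n (fun i => ih i.1 i.2))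
  refine ⟨fun n => Nat.lt_wfRel.wf.fix F n, fun n => ?_⟩
  have h1 : Nat.lt_wfRel.wf.fix F n =
      Classical.choose (h n (fun i => Nat.lt_wfRel.wf.fix F i.1)) :=
    WellFounded.fix_eq _ _ _
  change Φ n _ (Nat.lt_wfRel.wf.fix F n)
  rw [h1]
  exact Classical.choose_spec (h n (fun i => Nat.lt_wfRel.wf.fix F i.1))

theorem exists_pos_le {α : Type} (s : Finset α) (f : α → ℝ) (hf : ∀ a ∈ s, 0 < f a) :
    ∃ δ : ℝ, 0 < δ ∧ ∀ a ∈ s, δ ≤ f a := by
  classical
  induction s using Finset.induction_on with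
  | empty => exact ⟨1, one_pos, by simp⟩
  | insert a s _ ih =>
    obtain ⟨δ, h1, h2⟩ := ih fun b hb => hf b (Finset.mem_insert_of_mem hb)
    refine ⟨min δ (f a), lt_min h1 (hf a (Finset.mem_insert_self _ _)), fun b hb => ?_⟩
    rcases Finset.mem_insert.1 hb with rfl | hb
    · exact min_le_right _ _
    · exact (min_le_left _ _).trans (h2 b hb)

theorem norm_pos_of_irrational {x : ℝ} (hx : Irrational x) {M : ℤ} (hM : M ≠ 0) :
    0 < ‖((M * x : ℝ) : UnitAddCircle)‖ := by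
  rw [norm_pos_iff]
  intro h
  obtain ⟨n, hn⟩ := (AddCircle.coe_eq_zero_iff (1 : ℝ)).1 h
  have h2 : (M : ℝ) * x = n := by rw [← hn]; simp
  exact (hx.intCast_mul hM).ne_int n h2

theorem exists_small {x : ℝ} {δ : ℝ} (hδ : 0 < δ) : ∃ k l : ℤ, k ≠ 0 ∧ |k * x - l| ≤ δ := by
  obtain ⟨n, hn⟩ := exists_nat_one_div_lt hδ
  obtain ⟨j, k, hk, -, h⟩ := Real.exists_int_int_abs_mul_sub_le x (n := n + 1) (Nat.succ_pos n)
  refine ⟨k, j, hk.ne', ?_⟩
  refine h.trans ?_
  push_cast
  have h1 : (0 : ℝ) < n + 1 := by positivity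
  calc 1 / ((n : ℝ) + 1 + 1) ≤ 1 / ((n : ℝ) + 1) := by gcongr; linarith
    _ ≤ δ := hn.le

/-- The sequence of small multiples. -/
theorem exists_kl {x : ℝ} (hx : Irrational x) (w : ℕ → ℝ) (hw : ∀ n, 0 < w n) :
    ∃ k l : ℕ → ℤ, ∀ n, k n ≠ 0 ∧ |k n * x - l n| ≤ w n ∧
      ∀ M : ℤ, M ≠ 0 → |M| ≤ n * (1 + ∑ i ∈ Finset.range n, |k i|) →
        |k n * x - l n| * (2 ^ (n + 1) * (n + 1)) ≤ ‖((M * x : ℝ) : UnitAddCircle)‖ := by
  obtain ⟨f, hf⟩ := exists_seq (α := ℤ × ℤ)
    (fun n p a => a.1 ≠ 0 ∧ |a.1 * x - a.2| ≤ w n ∧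
      ∀ M : ℤ, M ≠ 0 → |M| ≤ n * (1 + ∑ i : Fin n, |(p i).1|) →
        |a.1 * x - a.2| * (2 ^ (n + 1) * (n + 1)) ≤ ‖((M * x : ℝ) : UnitAddCircle)‖) (by
    intro n p
    set B : ℤ := n * (1 + ∑ i : Fin n, |(p i).1|) with hB
    obtain ⟨δ, hδ, hδ'⟩ := exists_pos_le ((Finset.Icc (-B) B).filter (· ≠ 0))
      (fun M : ℤ => ‖((M * x : ℝ) : UnitAddCircle)‖) (fun M hM =>
        norm_pos_of_irrational hx (Finset.mem_filter.1 hM).2)
    have h2 : (0 : ℝ) < 2 ^ (n + 1) * (n + 1) := by positivity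
    obtain ⟨k, l, hk, hkl⟩ := exists_small (x := x)
      (lt_min (hw n) (div_pos hδ h2))
    refine ⟨(k, l), hk, hkl.trans (min_le_left _ _), fun M hM hMB => ?_⟩
    have h3 : |k * x - l| ≤ δ / (2 ^ (n + 1) * (n + 1)) := hkl.trans (min_le_right _ _)
    rw [le_div_iff₀ h2] at h3
    refine h3.trans (hδ' M ?_)
    rw [Finset.mem_filter, Finset.mem_Icc]
    exact ⟨abs_le.1 hMB, hM⟩)
  refine ⟨fun n => (f n).1, fun n => (f n).2, fun n => ?_⟩
  obtain ⟨h1, h2, h3⟩ := hf n
  refine ⟨h1, h2, fun M hM hMB => h3 M hM ?_⟩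
  rw [Finset.sum_range] at hMB
  exact hMB

section Indep

variable {x : ℝ} {k l : ℕ → ℤ}

/-- The small real numbers. -/
noncomputable def uu (x : ℝ) (k l : ℕ → ℤ) (n : ℕ) : ℝ := k n * x - l n

/-- A combination with bounded integer coefficients which vanishes has finitely many nonzero
coefficients. -/
theorem indep (hx : Irrational x) (hk : ∀ n, k n ≠ 0)
    (hM : ∀ n, ∀ M : ℤ, M ≠ 0 → |M| ≤ n * (1 + ∑ i ∈ Finset.range n, |k i|) →
        |uu x k l n| * (2 ^ (n + 1) * (n + 1)) ≤ ‖((M * x : ℝ) : UnitAddCircle)‖)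
    (hs : Summable fun n => |uu x k l n|)
    (c : ℕ → ℤ) (C : ℕ) (hc : ∀ n, |c n| ≤ C) (r : ℤ)
    (h0 : ((r * x + ∑' n, c n * uu x k l n : ℝ) : UnitAddCircle) = 0) :
    ∃ N, ∀ n, N ≤ n → c n = 0 := by
  have hcR : ∀ n, |(c n : ℝ)| ≤ C := fun n => by exact_mod_cast hc n
  have hsc : Summable fun n => (c n : ℝ) * uu x k l n := by
    refine Summable.of_norm_bounded (hs.mul_left (C : ℝ)) fun n => ?_
    rw [norm_mul, Real.norm_eq_abs, Real.norm_eq_abs]
    exact mul_le_mul_of_nonneg_right (hcR n) (abs_nonneg _)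
  -- the partial combinations vanish
  have key : ∀ N : ℕ, C ≤ N → r.natAbs ≤ N → r + ∑ n ∈ Finset.range N, c n * k n = 0 := by
    intro N hCN hrN
    by_contra hne
    set M : ℤ := r + ∑ n ∈ Finset.range N, c n * k n with hMdef
    have hP : 0 ≤ ∑ i ∈ Finset.range N, |k i| := Finset.sum_nonneg fun i _ => abs_nonneg _
    have hMle : ∀ n, N ≤ n → |M| ≤ n * (1 + ∑ i ∈ Finset.range n, |k i|) := by
      intro n hn
      have h1 : |M| ≤ N + N * ∑ i ∈ Finset.range N, |k i| := by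
        refine (abs_add_le _ _).trans (add_le_add ?_ ?_)
        · rw [Int.abs_eq_natAbs]; exact_mod_cast hrN
        · refine (Finset.abs_sum_le_sum_abs _ _).trans ?_
          rw [Finset.mul_sum]
          refine Finset.sum_le_sum fun i _ => ?_
          rw [abs_mul]
          refine mul_le_mul_of_nonneg_right ((hc i).trans ?_) (abs_nonneg _)
          exact_mod_cast hCN
      have h2 : ∑ i ∈ Finset.range N, |k i| ≤ ∑ i ∈ Finset.range n, |k i| :=
        Finset.sum_le_sum_of_subset_of_nonneg (Finset.range_mono hn) fun i _ _ => abs_nonneg _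
      have h3 : (N : ℤ) ≤ n := by exact_mod_cast hn
      have h4 : (0 : ℤ) ≤ N := by positivity
      nlinarith
    set θ : ℝ := ‖((M * x : ℝ) : UnitAddCircle)‖ with hθ
    have hθ0 : 0 ≤ θ := norm_nonneg _
    -- the tail
    have htail : ∀ n : ℕ, |uu x k l (n + N)| ≤ θ / (N + 1) / 2 / 2 ^ n := by
      intro n
      have h1 := hM (n + N) M hne (hMle (n + N) (Nat.le_add_left _ _))
      have h2 : (0 : ℝ) < 2 ^ (n + N + 1) * (((n + N : ℕ) : ℝ) + 1) := by positivity
      rw [← le_div_iff₀ h2] at h1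
      refine h1.trans ?_
      rw [div_div, div_div]
      refine div_le_div_of_nonneg_left hθ0 (by positivity) ?_
      have h3 : (2 : ℝ) ^ (n + 1) ≤ 2 ^ (n + N + 1) := pow_le_pow_right₀ (by norm_num) (by omega)
      have h4 : (N : ℝ) + 1 ≤ ((n + N : ℕ) : ℝ) + 1 := by
        push_cast; linarith [Nat.cast_nonneg (α := ℝ) n]
      calc ((N : ℝ) + 1) * (2 * 2 ^ n) = 2 ^ (n + 1) * ((N : ℝ) + 1) := by ring
        _ ≤ _ := mul_le_mul h3 h4 (by positivity) (by positivity)
    have hgeo : HasSum (fun n : ℕ => θ / (N + 1) / 2 / 2 ^ n) (θ / (N + 1)) :=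
      hasSum_geometric_two' _
    have hsN : Summable fun n => |uu x k l (n + N)| :=
      Summable.of_nonneg_of_le (fun n => abs_nonneg _) htail hgeo.summable
    have hsum : ∑' n, |uu x k l (n + N)| ≤ θ / (N + 1) := by
      rw [← hgeo.tsum_eq]
      exact Summable.tsum_le_tsum htail hsN hgeo.summable
    have hscN : Summable fun n => (c (n + N) : ℝ) * uu x k l (n + N) :=
      (summable_nat_add_iff N).2 hsc
    have habs : |∑' n, (c (n + N) : ℝ) * uu x k l (n + N)| ≤ C * (θ / (N + 1)) := by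
      have h1 : |∑' n, (c (n + N) : ℝ) * uu x k l (n + N)| ≤
          ∑' n, C * |uu x k l (n + N)| := by
        have := tsum_of_norm_bounded (f := fun n => (c (n + N) : ℝ) * uu x k l (n + N))
          ((hsN.mul_left (C : ℝ)).hasSum) (fun n => by
            rw [norm_mul, Real.norm_eq_abs, Real.norm_eq_abs]
            exact mul_le_mul_of_nonneg_right (hcR _) (abs_nonneg _))
        exact this
      rw [tsum_mul_left] at h1
      exact h1.trans (mul_le_mul_of_nonneg_left hsum (Nat.cast_nonneg _))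
    have hfin : ∑ n ∈ Finset.range N, (c n : ℝ) * uu x k l n =
        ((∑ n ∈ Finset.range N, c n * k n : ℤ) : ℝ) * x -
          ((∑ n ∈ Finset.range N, c n * l n : ℤ) : ℝ) := by
      push_cast
      rw [Finset.sum_mul, ← Finset.sum_sub_distrib]
      refine Finset.sum_congr rfl fun i _ => ?_
      rw [uu]; ring
    have hsplit : (r * x + ∑' n, c n * uu x k l n : ℝ) =
        (M : ℝ) * x - ((∑ n ∈ Finset.range N, c n * l n : ℤ) : ℝ) +
          ∑' n, (c (n + N) : ℝ) * uu x k l (n + N) := by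
      rw [← hsc.sum_add_tsum_nat_add N, hfin, hMdef]
      push_cast
      ring
    have hMx : ((M * x : ℝ) : UnitAddCircle) =
        ((-(∑' n, (c (n + N) : ℝ) * uu x k l (n + N)) : ℝ) : UnitAddCircle) := by
      rw [hsplit] at h0
      obtain ⟨z, hz⟩ := (AddCircle.coe_eq_zero_iff (1 : ℝ)).1 h0
      have h1 : (M : ℝ) * x = -(∑' n, (c (n + N) : ℝ) * uu x k l (n + N)) +
          ((z + ∑ n ∈ Finset.range N, c n * l n : ℤ) : ℝ) := by
        have h2 : (z : ℝ) = (M : ℝ) * x - ((∑ n ∈ Finset.range N, c n * l n : ℤ) : ℝ) +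
          ∑' n, (c (n + N) : ℝ) * uu x k l (n + N) := by
          rw [← hz]; simp
        have h4 : ((z + ∑ n ∈ Finset.range N, c n * l n : ℤ) : ℝ) =
            (z : ℝ) + ((∑ n ∈ Finset.range N, c n * l n : ℤ) : ℝ) := by push_cast; rfl
        rw [h4, h2]
        ring
      rw [h1, AddCircle.coe_add]
      have h3 : (((z + ∑ n ∈ Finset.range N, c n * l n : ℤ) : ℝ) : UnitAddCircle) = 0 :=
        (AddCircle.coe_eq_zero_iff (1 : ℝ)).2 ⟨z + ∑ n ∈ Finset.range N, c n * l n, by simp⟩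
      rw [h3, add_zero]
    have hle : θ ≤ C * (θ / (N + 1)) := by
      refine le_trans ?_ habs
      rw [hθ, hMx, ← abs_neg]
      exact QuotientAddGroup.norm_mk_le_norm
    have hpos : 0 < θ := norm_pos_of_irrational hx hne
    have h5 : (C : ℝ) * (θ / (N + 1)) < θ := by
      have h6 : (C : ℝ) ≤ N := by exact_mod_cast hCN
      rw [mul_div_assoc', div_lt_iff₀ (by positivity)]
      nlinarith
    exact absurd hle (not_le.2 h5)
  refine ⟨max C r.natAbs, fun n hn => ?_⟩
  have h1 := key n ((le_max_left _ _).trans hn) ((le_max_right _ _).trans hn)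
  have h2 := key (n + 1) ((le_max_left _ _).trans (hn.trans n.le_succ))
    ((le_max_right _ _).trans (hn.trans n.le_succ))
  rw [Finset.sum_range_succ] at h2
  have h3 : c n * k n = 0 := by linarith
  exact (mul_eq_zero.1 h3).resolve_right (hk n)

end Indep

end Pool.Agent.Q302.IS
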